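import Pool.Agent.RTF.Stmts

set_option autoImplicit false

/-!
# Squad RTF, module CNT: a group with a finite aspherical complex is countable
-/

namespace Pool.Agent.RTF.H33

open Pool.Agent.Glue Pool.Agent.FB Pool.Agent.CD Pool.Agent.RTF

noncomputable section

open Classical

variable {G : Type} [Group G]

/-- The sum of the coefficients over a subgroup. -/
def phi (H : Subgroup G) : MonoidAlgebra ℤ G →+ ℤ where
  toFun a := a.coeff.sum fun h c => if h ∈ H then c else 0
  map_zero' := by
    rw [MonoidAlgebra.coeff_zero, Finsupp.sum_zero_index]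
  map_add' a b := by
    rw [MonoidAlgebra.coeff_add]
    refine Finsupp.sum_add_index' (fun h => by simp) (fun h c d => ?_)
    split_ifs
    · rfl
    · simp

/-- The sum of all coefficients. -/
def eps : MonoidAlgebra ℤ G →+ ℤ where
  toFun a := a.coeff.sum fun _ c => c
  map_zero' := by
    rw [MonoidAlgebra.coeff_zero, Finsupp.sum_zero_index]
  map_add' a b := by
    rw [MonoidAlgebra.coeff_add]
    exact Finsupp.sum_add_index' (fun h => rfl) (fun h c d => rfl)

lemma phi_single (H : Subgroup G) (g : G) (n : ℤ) :
    phi H (MonoidAlgebra.single g n) = if g ∈ H then n else 0 := by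
  change (Finsupp.single g n).sum (fun h c => if h ∈ H then c else 0) = _
  rw [Finsupp.sum_single_index]
  simp

lemma eps_single (g : G) (n : ℤ) : eps (MonoidAlgebra.single g n) = n := by
  change (Finsupp.single g n).sum (fun _ c => c) = _
  rw [Finsupp.sum_single_index]
  rfl

lemma phi_mul (H : Subgroup G) (a b : MonoidAlgebra ℤ G) (hb : ∀ h, b.coeff h ≠ 0 → h ∈ H) :
    phi H (a * b) = phi H a * eps b := by
  induction a using MonoidAlgebra.induction_linear with
  | zero => simp
  | add f g hf hg => rw [add_mul, map_add, hf, hg, map_add, add_mul]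
  | single g r =>
    have hbs : b = ∑ h ∈ b.coeff.support, MonoidAlgebra.single h (b.coeff h) := by
      conv_lhs => rw [← MonoidAlgebra.sum_coeff_single b]
      rfl
    rw [phi_single]
    conv_lhs => rw [hbs]
    rw [Finset.mul_sum, map_sum]
    simp only [MonoidAlgebra.single_mul_single, phi_single]
    have h2 : eps b = ∑ h ∈ b.coeff.support, b.coeff h := rfl
    rw [h2, Finset.mul_sum]
    refine Finset.sum_congr rfl fun h hh => ?_
    have h3 : h ∈ H := hb h (Finsupp.mem_support_iff.1 hh)
    rw [H.mul_mem_cancel_right h3]
    split_ifs <;> simp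

theorem cnt : CntStmt := by
  intro G _ I _ C hC
  obtain ⟨v, hv⟩ := hC.vertex
  let S : Set G := ⋃ p : I × I, ((C.bd p.1 p.2).coeff.support : Set G)
  have hS : S.Countable := Set.countable_iUnion fun p => (Finset.finite_toSet _).countable
  let H : Subgroup G := Subgroup.closure S
  have hbd : ∀ i j h, (C.bd i j).coeff h ≠ 0 → h ∈ H := by
    intro i j h hh
    exact Subgroup.subset_closure (Set.mem_iUnion.2 ⟨(i, j), Finsupp.mem_support_iff.2 hh⟩)
  have hex : ∀ i, C.deg i = 1 → ∑ j, eps (C.bd i j) = 0 := by
    intro i hi
    have h1 := (hC.exact_zero (bdry C (Pi.single i 1)) ?_).2 ⟨Pi.single i 1, ?_, rfl⟩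
    · have h2 : bdry C (Pi.single i 1) = fun j => C.bd i j := by
        funext j
        change ∑ k, (Pi.single i 1 : I → MonoidAlgebra ℤ G) k * C.bd k j = _
        rw [Finset.sum_eq_single i]
        · simp
        · intro b _ hb
          rw [Pi.single_eq_of_ne hb, zero_mul]
        · simp
      rw [h2] at h1
      exact h1
    · intro j hj
      change ∑ k, (Pi.single i 1 : I → MonoidAlgebra ℤ G) k * C.bd k j = _
      refine Finset.sum_eq_zero fun k _ => ?_
      by_cases hk : k = i
      · subst hk
        have : C.bd k j = 0 := by
          by_contra h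
          have := C.bd_deg k j h
          omega
        rw [this, mul_zero]
      · rw [Pi.single_eq_of_ne hk, zero_mul]
    · intro k hk
      have : k ≠ i := by
        rintro rfl
        exact hk hi
      exact Pi.single_eq_of_ne this _
  have hall : ∀ g : G, g ∈ H := by
    intro g
    let x : I → MonoidAlgebra ℤ G :=
      Pi.single v (MonoidAlgebra.single g 1 - MonoidAlgebra.single 1 1)
    have hx0 : total x = 0 := by
      change ∑ i, eps (x i) = 0
      rw [Finset.sum_eq_single v]
      · simp only [x, Pi.single_eq_same, map_sub, eps_single, sub_self]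
      · intro b _ hb
        simp only [x, Pi.single_eq_of_ne hb, map_zero]
      · simp
    obtain ⟨y, hy, hyx⟩ := (hC.exact_zero x (by
      intro i hi
      have : i ≠ v := by
        rintro rfl
        exact hi hv
      exact Pi.single_eq_of_ne this _)).1 hx0
    have h1 : ∑ j, phi H (x j) = 0 := by
      have h2 : ∀ j, phi H (x j) = ∑ i, phi H (y i) * eps (C.bd i j) := by
        intro j
        rw [← hyx]
        change phi H (∑ i, y i * C.bd i j) = _
        rw [map_sum]
        exact Finset.sum_congr rfl fun i _ => phi_mul H _ _ (hbd i j)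
      simp only [h2]
      rw [Finset.sum_comm]
      refine Finset.sum_eq_zero fun i _ => ?_
      rw [← Finset.mul_sum]
      by_cases hi : C.deg i = 1
      · rw [hex i hi, mul_zero]
      · rw [hy i hi, map_zero, zero_mul]
    rw [Finset.sum_eq_single v] at h1
    · simp only [x, Pi.single_eq_same, map_sub, phi_single, H.one_mem, if_true] at h1
      by_contra hg
      rw [if_neg hg] at h1
      omega
    · intro b _ hb
      simp only [x, Pi.single_eq_of_ne hb, map_zero]
    · simp
  have : Countable S := hS.to_subtype
  have hr : (FreeGroup.lift (fun s : S => (s : G))).range = H := by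
    rw [FreeGroup.range_lift_eq_closure, Subtype.range_coe]
  have hsurj : Function.Surjective (FreeGroup.lift (fun s : S => (s : G))) := by
    intro g
    have := hall g
    rw [← hr] at this
    exact this
  have : Countable (FreeGroup S) := FreeGroup.toWord_injective.countable
  exact hsurj.countable

end

end Pool.Agent.RTF.H33
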