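import Pool.Agent.RTF.Stmts
import Pool.Agent.Helper4_CD.Dua

set_option autoImplicit false

/-!
# Squad RTF, module DUAK: duality over the division ring
-/

namespace Pool.Agent.RTF.H33

open Pool.Agent.Glue Pool.Agent.FB Pool.Agent.CD Pool.Agent.RTF

noncomputable section

/-- DUAK -/
theorem duak : DuakStmt := by
  intro G _ A I _ C n hcoh x hx hx0
  let D : I → I → A.K := fun k i => (C.bd k i).coeff.sum fun h c => (c : F2) • A.s h
  have hdelta : ∀ f k, delta C A.kL f k = ∑ i, D k i * f i := by
    intro f k
    refine Finset.sum_congr rfl fun i _ => ?_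
    simp only [D, Finsupp.sum, Finset.sum_mul, smul_mul_assoc]
    rfl
  have hsm : ∀ (c : F2) (z : A.K), A.st (c • z) = c • A.st z := by
    intro c z
    exact (AddMonoidHom.toZModLinearMap 2 A.st).map_smul c z
  have hpart : ∀ x j, A.st (part C A.kL x j) = ∑ i, A.st (x i) * D i j := by
    intro x j
    change A.st (∑ i, (C.bd i j).coeff.sum fun h c => (c : F2) • A.kL h⁻¹ (x i)) = _
    rw [map_sum]
    refine Finset.sum_congr rfl fun i _ => ?_
    simp only [D, Finsupp.sum, Finset.mul_sum, map_sum, hsm]
    refine Finset.sum_congr rfl fun h _ => ?_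
    change _ • A.st (A.s h⁻¹ * x i) = _
    rw [A.st_mul, A.st_s, inv_inv, mul_smul_comm]
  obtain ⟨z, hz, hz1⟩ := H4.col_row D C.deg (fun k i h => C.bd_deg k i (by
      intro h0
      apply h
      simp only [D, h0]
      exact Finsupp.sum_zero_index)) n (by
      intro f hf hf0
      obtain ⟨g, _, hg⟩ := hcoh f hf (by
        funext k
        rw [hdelta]
        exact hf0 k)
      refine ⟨g, fun k => ?_⟩
      rw [← hdelta, hg])
    (fun i => A.st (x i)) (fun i hi => by rw [hx i hi, map_zero]) (fun j => by
      rw [← hpart, hx0]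
      exact map_zero A.st)
  refine ⟨fun i => A.st (z i), fun i hi => by
    dsimp only
    rw [hz i hi, map_zero], ?_⟩
  funext j
  have h1 : A.st (part C A.kL (fun i => A.st (z i)) j) = A.st (x j) := by
    rw [hpart]
    simp only [A.st_st]
    exact hz1 j
  rw [← A.st_st (part C A.kL (fun i => A.st (z i)) j), h1, A.st_st]

end

end Pool.Agent.RTF.H33
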